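import Pool.Agent.Y990.OA.Stm
import Pool.Agent.Y689.CB.Ibp

set_option autoImplicit false

/-!
Influence bound with concentration (project OA of helper990): proof of `S_ibp2`.
-/

namespace Pool.Agent.Y338.OA

open H974 (Ex Ok ind Pr)
open Pool.Agent.Y990.PL (Expl)
open Pool.Agent.Y990.OA
open Pool.Agent.Y689.CB (ibp_one ibp_touch)

/-- IBP2. -/
theorem ibp2 (h : S_conc) : S_ibp2 := by
  intro E W _ S T p v B C t g hp hX hTS hg K hK
  have key : ∀ u ∈ B, ∑ c ∈ T, p c * (1 - p c) *
      Ex p S (fun A => g u (C u (A.erase c)) - g u (C u (insert c A))) ≤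
      K * Ex p S (fun A => g u (C u A) * √(Vt T t (C u A))) +
        (T.card : ℝ) ^ 2 * Real.exp (-(K ^ 2 / 2)) := by
    intro u huB
    have hXu := hX u huB
    have h1 : ∀ c ∈ T, p c * (1 - p c) *
        Ex p S (fun A => g u (C u (A.erase c)) - g u (C u (insert c A))) =
        Ex p S (fun A => g u (C u A) * (ind (t c (C u A)) * (p c - ind (c ∈ A)))) := by
      intro c hc
      rw [← ibp_touch hXu (hTS hc) (fun A => g u (C u A)) (fun A A' h => by simp only [h])]
      rw [ibp_one p (hTS hc) (fun A => g u (C u A))]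
    rw [Finset.sum_congr rfl h1, ← H974.Ex_sum]
    have h2 : Ex p S (fun A => ∑ c ∈ T, g u (C u A) *
          (ind (t c (C u A)) * (p c - ind (c ∈ A)))) =
        Ex p S (fun A => g u (C u A) * Mt p T t (C u A) A) := by
      refine H974.Ex_congr fun A _ => ?_
      unfold Mt
      rw [Finset.mul_sum]
    rw [h2]
    have h3 := h E W S T p v (C u) t hp hXu hTS K hK
    have h4 : Ex p S (fun A => g u (C u A) * Mt p T t (C u A) A) ≤
        Ex p S (fun A => K * (g u (C u A) * √(Vt T t (C u A))) +
          ind (K * √(Vt T t (C u A)) < Mt p T t (C u A) A) * Mt p T t (C u A) A) := by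
      refine H974.Ex_mono hp fun A _ => ?_
      obtain ⟨hg0, hg1⟩ := hg u (C u A)
      have hs : 0 ≤ √(Vt T t (C u A)) := Real.sqrt_nonneg _
      by_cases hc : K * √(Vt T t (C u A)) < Mt p T t (C u A) A
      · rw [H974.ind_of hc, one_mul]
        have hM : 0 ≤ Mt p T t (C u A) A := by
          have : 0 ≤ K * √(Vt T t (C u A)) := by positivity
          linarith
        have : 0 ≤ K * (g u (C u A) * √(Vt T t (C u A))) := by positivity
        nlinarith
      · rw [H974.ind_not_of hc, zero_mul, add_zero]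
        push Not at hc
        calc g u (C u A) * Mt p T t (C u A) A ≤ g u (C u A) * (K * √(Vt T t (C u A))) :=
              mul_le_mul_of_nonneg_left hc hg0
          _ = _ := by ring
    rw [H974.Ex_add, H974.Ex_mul_left] at h4
    linarith
  have h5 : ∀ c ∈ T, p c * (1 - p c) *
      Ex p S (fun A => ∑ u ∈ B, (g u (C u (A.erase c)) - g u (C u (insert c A)))) =
      ∑ u ∈ B, p c * (1 - p c) *
      Ex p S (fun A => g u (C u (A.erase c)) - g u (C u (insert c A))) := by
    intro c _
    rw [← Finset.mul_sum, ← H974.Ex_sum]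
  rw [Finset.sum_congr rfl h5, Finset.sum_comm]
  refine (Finset.sum_le_sum key).trans (le_of_eq ?_)
  rw [Finset.sum_add_distrib, Finset.sum_const, nsmul_eq_mul, H974.Ex_sum, Finset.mul_sum]

end Pool.Agent.Y338.OA
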